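import Mathlib
import Pool.Agent.L5helper5.SP.Swap
import Pool.Agent.L5helper5.SP.Tuples

/-!
# MP_301213_nt: almost all tuples of Hoffman elements satisfy no linear relation of small height

Hoffman's conjecture says that the `N_k` numbers `ζ(w)`, `w` a word of weight `k` in the letters `2`, `3`, are linearly
independent over `ℚ`. We prove, for every `k ≥ 1`:

* every real number is the value of at most `200 N_k / √k` of these words;
* for all `r`, `s`, `H` and all real numbers `θ_1, ..., θ_s` (which may depend on `k`), all but at most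
  `200 (2 H + 1) ^ (r + s) N_k ^ r / √k` of the `N_k ^ r` tuples `(w_1, ..., w_r)` of words have the following property:
  the numbers `ζ(w_1), ..., ζ(w_r)` are linearly independent modulo `θ_1, ..., θ_s` as far as integer coefficients of absolute
  value at most `H` are concerned, that is `∑ c_i ζ(w_i) ≠ ∑ e_j θ_j` for all integers `|c_i|, |e_j| ≤ H` with `c ≠ 0`.

So for fixed `r` and `s` and `H = o(k ^ (1 / (2 r + 2 s)))` almost all tuples satisfy no relation of height `H`.

Proof. If a neighbouring pair `3, 2` of letters of a word is replaced by `2, 3` (the first letter belongs to the largest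
summation variable) then the value strictly increases (`Swap`). Words with the same sums of the pairs of letters
`(w_1, w_2), (w_3, w_4), ...` form a Boolean lattice, on which the value is strictly monotone; by Sperner's theorem a value is
taken by at most `C(b, b / 2)` of its `2 ^ b` elements. The words with `b ≤ k / 20` are exponentially few (`Count`).
-/

set_option autoImplicit false

namespace Pool.Agent.Results.MP_301213_nt.AlmostAllTuples

open Pool.Agent.L5helper5.SP

/-- the multiple zeta value of the list `l`, the first entry belongs to the largest summation variable, in the words of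
`S16469` -/
noncomputable def mzv (l : List ℕ) : ℝ :=
  ∑' m : {m : Fin l.length → ℕ // StrictAnti m ∧ ∀ i, 0 < m i}, ∏ i, ((m.1 i : ℝ) ^ (l.get i))⁻¹

/-- the words of weight `k` in the letters `2` and `3` -/
def words (k : ℕ) : Set (List ℕ) := {w | (∀ x ∈ w, x = 2 ∨ x = 3) ∧ w.sum = k}

lemma mzv_eq {l : List ℕ} (hl : Pool.Agent.H447R2.MZ.Adm l) : mzv l = Pool.Agent.H447R2.MZ.val l := by
  have h1 := Pool.Agent.H447R2.MZ.hasSum_val l.length l.get (by rw [List.ofFn_get]; exact hl)
  rw [List.ofFn_get] at h1
  exact h1.tsum_eq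

lemma two_le {w : List ℕ} (h : L23 w) : ∀ a ∈ w, 2 ≤ a := fun a ha => by
  rcases h a ha with rfl | rfl <;> norm_num

lemma inc : Inc mzv := by
  intro p q hp hq
  have h32 : L23 [3, 2] := by intro x hx; simp at hx; omega
  have h23 : L23 [2, 3] := by intro x hx; simp at hx; omega
  have h1 : L23 (p ++ 3 :: 2 :: q) := L23_app hp (L23_app h32 hq)
  have h2 : L23 (p ++ 2 :: 3 :: q) := L23_app hp (L23_app h23 hq)
  rw [mzv_eq (adm_of (two_le h1)), mzv_eq (adm_of (two_le h2))]
  exact val_swap_lt (two_le hp) (two_le hq)

lemma words_eq (k : ℕ) : words k = ((Wd k : Finset (List ℕ)) : Set (List ℕ)) := by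
  ext w
  rw [Finset.mem_coe, mem_Wd]
  rfl

/-- **Theorem.** Let `N = (words k).ncard` be the number of words of weight `k ≥ 1` in the letters `2`, `3`. (1) Every real
number is the value `ζ(w)` of at most `200 N / √k` of these words. (2) For all `r`, `s`, `H` and all real `θ_1, ..., θ_s` there
are at most `200 (2 H + 1) ^ (r + s) N ^ r / √k` tuples `(w_1, ..., w_r)` of such words for which there are integers `c_i`,
`e_j` of absolute value at most `H`, with `c ≠ 0`, such that `∑ c_i ζ(w_i) = ∑ e_j θ_j`. -/
theorem result (k : ℕ) (hk : 1 ≤ k) :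
    (words k).Finite ∧
    (∀ x : ℝ, ({w ∈ words k | mzv w = x}.ncard : ℝ) ≤ 200 * (words k).ncard / √k) ∧
    ∀ (r s H : ℕ) (θ : Fin s → ℝ),
      ({w : Fin r → List ℕ | (∀ i, w i ∈ words k) ∧ ∃ (c : Fin r → ℤ) (e : Fin s → ℤ), c ≠ 0 ∧
          (∀ i, |c i| ≤ H) ∧ (∀ j, |e j| ≤ H) ∧
          ∑ i, (c i : ℝ) * mzv (w i) = ∑ j, (e j : ℝ) * θ j}.ncard : ℝ) ≤
        200 * (2 * H + 1) ^ (r + s) * ((words k).ncard : ℝ) ^ r / √k := by
  classical
  have hN : (words k).ncard = (Wd k).card := by rw [words_eq, Set.ncard_coe_finset]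
  rw [hN]
  refine ⟨by rw [words_eq]; exact Finset.finite_toSet _, fun x => ?_, fun r s H θ => ?_⟩
  · have h1 : {w ∈ words k | mzv w = x} = (((Wd k).filter fun w => mzv w = x : Finset (List ℕ)) : Set (List ℕ)) := by
      rw [words_eq]
      ext w
      simp
    rw [h1, Set.ncard_coe_finset]
    exact few inc k hk x
  · set P : (Fin r → List ℕ) → Prop := fun w => ∃ (c : Fin r → ℤ) (e : Fin s → ℤ), c ≠ 0 ∧
          (∀ i, |c i| ≤ H) ∧ (∀ j, |e j| ≤ H) ∧
          ∑ i, (c i : ℝ) * mzv (w i) = ∑ j, (e j : ℝ) * θ j with hP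
    have h1 : {w : Fin r → List ℕ | (∀ i, w i ∈ words k) ∧ P w} =
        (((Fintype.piFinset fun _ : Fin r => Wd k).filter P : Finset (Fin r → List ℕ)) : Set (Fin r → List ℕ)) := by
      ext w
      rw [words_eq]
      simp
    rw [h1, Set.ncard_coe_finset]
    have h2 := all_rel (r := r) (Wd k) mzv (200 / √k) (fun x => by
      refine (few inc k hk x).trans (le_of_eq ?_)
      ring) (by positivity) θ H P (fun w hw => hw)
    refine h2.trans (le_of_eq ?_)
    ring

end Pool.Agent.Results.MP_301213_nt.AlmostAllTuples
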