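import Mathlib
import Pool.Agent.L5helper5.CS.Main

/-!
# MP_301213_nt: Hoffman words with a common last part have no relations of small height

Let `U` be a finite set of words with letters at least two and `q = b q'` a nonempty word in positive integers. The numbers
`ζ(u q)`, `u ∈ U` (the letters of `q` belong to the smallest summation variables), satisfy no linear relation with integer
coefficients, not all zero, of absolute value at most `κ · length q`, where `κ > 0` depends only on `U`, not on `q`; and the
value of such a linear form is at least `κ ζ(b + J, q')` in absolute value, `J = J(U)`.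

The proof: `ζ(u q)` is the sum over `n` of the tail `T u n` of the multiple zeta series of `u` with nonnegative weights
which vanish for `n < length q`. The tails have asymptotic expansions in inverse rising factorials with rational coefficients
(`hasExp_T`). The coefficient sequences of different words are linearly independent: this is the independence of the tails
over the rational functions in the ring of sequences of polynomial growth modulo rapidly decreasing sequences (`hypR`).
So a linear form in the tails with integer coefficients of absolute value at most `h` has a constant sign and is at least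
`κ n ^ (-J)` for `n ≥ h / κ`.
-/

set_option autoImplicit false

namespace Pool.Agent.Results.MP_301213_nt.CommonSuffix

/-- the multiple zeta value of the list `l`, the first entry belongs to the largest summation variable, in the words of
`S16469` -/
noncomputable def mzv (l : List ℕ) : ℝ :=
  ∑' m : {m : Fin l.length → ℕ // StrictAnti m ∧ ∀ i, 0 < m i}, ∏ i, ((m.1 i : ℝ) ^ (l.get i))⁻¹

lemma mzv_eq {l : List ℕ} (hl : Pool.Agent.H447R2.MZ.Adm l) : mzv l = Pool.Agent.H447R2.MZ.val l := by
  have h1 := Pool.Agent.H447R2.MZ.hasSum_val l.length l.get (by rw [List.ofFn_get]; exact hl)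
  rw [List.ofFn_get] at h1
  exact h1.tsum_eq

lemma adm {u : List ℕ} (hu : ∀ s ∈ u, 2 ≤ s) {b : ℕ} (hb : 1 ≤ b) {q : List ℕ} (hq : ∀ x ∈ q, 1 ≤ x)
    (h0 : u = [] → 2 ≤ b) : Pool.Agent.H447R2.MZ.Adm (u ++ b :: q) := by
  refine ⟨fun a ha => ?_, fun a t h => ?_⟩
  · rcases List.mem_append.1 ha with h | h
    · exact le_trans (by norm_num) (hu a h)
    · rcases List.mem_cons.1 h with rfl | h
      · exact hb
      · exact hq a h
  · cases u with
    | nil =>
      rw [List.nil_append] at h
      rw [← (List.cons.inj h).1]
      exact h0 rfl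
    | cons s v =>
      rw [List.cons_append] at h
      rw [← (List.cons.inj h).1]
      exact hu s List.mem_cons_self

/-- **Theorem.** For every finite set `U` of words with letters at least two there are `κ > 0` and `J` such that for all
words `q' = b q` in positive integers (`b ≥ 2` if the empty word is in `U`) and all integers `c_u`, `u ∈ U`, not all zero,
of absolute value at most `κ · length q'`: `|∑ c_u ζ(u q')| ≥ κ ζ(b + J, q) > 0`. In particular the numbers `ζ(u q')`,
`u ∈ U`, satisfy no nontrivial linear relation with integer coefficients of absolute value at most `κ · length q'`. -/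
theorem result (U : Finset (List ℕ)) (hU : ∀ u ∈ U, ∀ s ∈ u, 2 ≤ s) : ∃ κ : ℝ, 0 < κ ∧ ∃ J : ℕ,
    ∀ (b : ℕ) (q : List ℕ), 1 ≤ b → (∀ x ∈ q, 1 ≤ x) → ([] ∈ U → 2 ≤ b) →
    ∀ c : List ℕ → ℤ, (∀ u ∈ U, |(c u : ℝ)| ≤ κ * (b :: q).length) → (∃ u ∈ U, c u ≠ 0) →
      0 < mzv ((b + J) :: q) ∧ κ * mzv ((b + J) :: q) ≤ |∑ u ∈ U, (c u : ℝ) * mzv (u ++ b :: q)| := by
  classical
  set φ : List ℕ → List ℕ := fun u => (u.map (· - 2)).reverse with hφ
  have hinv : ∀ u ∈ U, (Pool.Agent.L5helper5.CS.up (φ u)).reverse = u := by
    intro u hu
    rw [hφ, Pool.Agent.L5helper5.CS.up]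
    simp only [List.map_reverse, List.reverse_reverse, List.map_map]
    conv_rhs => rw [← List.map_id u]
    refine List.map_congr_left fun x hx => ?_
    have := hU u hu x hx
    simp only [Function.comp, id]
    omega
  set V := U.image φ with hV
  have hinj : Set.InjOn φ U := by
    intro u hu u' hu' h
    rw [← hinv u hu, ← hinv u' hu', h]
  obtain ⟨κ, hκ, J, hJ1, h⟩ := Pool.Agent.L5helper5.CS.measure V
  refine ⟨κ, hκ, J, fun b q hb hq hnil c hc hne => ⟨?_, ?_⟩⟩
  · rw [mzv_eq (Pool.Agent.L5helper5.CS.adm_cons (by omega) hq)]
    exact Pool.Agent.L5helper5.CS.val_pos (by omega) hq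
  · set ψ : List ℕ → List ℕ := fun v => (Pool.Agent.L5helper5.CS.up v).reverse with hψ
    have hψφ : ∀ u ∈ U, ψ (φ u) = u := hinv
    have hnil' : [] ∈ V → 2 ≤ b := by
      intro h0
      obtain ⟨u, hu, hu0⟩ := Finset.mem_image.1 h0
      apply hnil
      have := hψφ u hu
      rw [hu0, hψ] at this
      simp only [Pool.Agent.L5helper5.CS.up, List.map_nil, List.reverse_nil] at this
      rw [this]
      exact hu
    have h1 := h b q hb hq hnil' (fun v => c (ψ v)) (by
      obtain ⟨u, hu, hcu⟩ := hne
      exact ⟨φ u, Finset.mem_image_of_mem _ hu, by rw [hψφ u hu]; exact hcu⟩) (by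
      intro v hv
      obtain ⟨u, hu, rfl⟩ := Finset.mem_image.1 hv
      rw [hψφ u hu]
      have := hc u hu
      rw [List.length_cons] at this
      push_cast at this
      exact this)
    rw [mzv_eq (Pool.Agent.L5helper5.CS.adm_cons (by omega) hq)]
    refine h1.trans (le_of_eq ?_)
    congr 1
    rw [hV, Finset.sum_image hinj]
    refine Finset.sum_congr rfl fun u hu => ?_
    have h2 := hψφ u hu
    have h3 : (Pool.Agent.L5helper5.CS.up (φ u)).reverse = u := h2
    rw [h2, h3, mzv_eq (adm (hU u hu) hb hq fun h0 => hnil (h0 ▸ hu))]

end Pool.Agent.Results.MP_301213_nt.CommonSuffix
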