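import Mathlib
import Pool.Agent.L5helper80.MZ.Ana
import Pool.Agent.L5helper80.MZ.Cube
import Pool.Agent.L5helper80.MZ.Rel

/-!
# MP_301213_nt: the sizes of the Hoffman elements are spread out; almost all tuples satisfy no relation of height `e ^ (ε √k)`

Hoffman's conjecture says that the `N_k` numbers `ζ(w)`, `w` a word of weight `k` in the letters `2`, `3`, are linearly
independent over `ℚ`. We prove, with absolute constants:

* every interval `[y, e ^ L y]` contains the values of at most `10 ^ 5 (1 + L) N_k / √k` words of weight `k`;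
* for all but a proportion `3 * 10 ^ 5 r ^ 2 (1 + log H) / √k` of the `r`-tuples of words of weights `≥ k`, every linear form
  `∑ c_i ζ(w_i) - e θ` with integer coefficients of absolute value at most `H` is at least half of each `ζ(w_i)` with `c_i ≠ 0`
  (`θ` is an arbitrary real number); so almost all tuples satisfy no relation of height `exp (ε √k)`, and `r` may grow;
* for all but a proportion `3 * 10 ^ 5 (2 D + 1) ^ r (1 + log H) / √k` of the tuples the same holds for all integer polynomials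
  of degree at most `D` in each variable with coefficients of absolute value at most `H`;
* every set of `δ N_k` words of weight `k` contains `δ √k / (3 * 10 ^ 5 (1 + log H))` words whose values satisfy no linear
  relation of height `H`.

Proof. Let `m_1 > m_2 > ...` be the summation variables of `ζ(w)`, `w` of length `n`. If a letter `3` at the place `i` and a
letter `2` at the place `i + n / 2` are exchanged, then `ζ(w)` is multiplied by the mean value of `m_i / m_{i + n / 2}` with
respect to the weights of the series (`swap_H`). The part of the series where `m_{i + n / 2} > 60 n` is at most half of its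
first term (`far`), and elsewhere the quotient is at least `1 + 1 / 180`; so the value grows at least by the factor
`1 + 1 / 360` (`val_exch`). The words with given pairs of letters at the places `i`, `i + n / 2` form a Boolean lattice, and by
Sperner's theorem an interval `[y, e ^ c y)`, `c = 1 / 361`, contains few of their values (`Cube`). If the logarithms of the
values are separated then in an integer combination the largest term dominates (`Rel`).
-/

set_option autoImplicit false

namespace Pool.Agent.Results.MP_301213_nt.LogSeparation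

open Pool.Agent.L5helper5.SP
open Pool.Agent.L5helper80.MZ

/-- the multiple zeta value of the list `l`, the first entry belongs to the largest summation variable, in the words of
`S16469` -/
noncomputable def mzv (l : List ℕ) : ℝ :=
  ∑' m : {m : Fin l.length → ℕ // StrictAnti m ∧ ∀ i, 0 < m i}, ∏ i, ((m.1 i : ℝ) ^ (l.get i))⁻¹

/-- the words of weight `k` in the letters `2` and `3` -/
def words (k : ℕ) : Set (List ℕ) := {w | (∀ x ∈ w, x = 2 ∨ x = 3) ∧ w.sum = k}

lemma mzv_eq {l : List ℕ} (hl : Pool.Agent.H447R2.MZ.Adm l) : mzv l = Pool.Agent.H447R2.MZ.val l := by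
  have h1 := Pool.Agent.H447R2.MZ.hasSum_val l.length l.get (by rw [List.ofFn_get]; exact hl)
  rw [List.ofFn_get] at h1
  exact h1.tsum_eq

lemma two_le {w : List ℕ} (h : L23 w) : ∀ a ∈ w, 2 ≤ a := fun a ha => by
  rcases h a ha with rfl | rfl <;> norm_num

lemma mzv_pos {w : List ℕ} (h : L23 w) : 0 < mzv w := by
  rw [mzv_eq (adm_of (two_le h))]
  have h1 := H_ge_D w w.length le_rfl
  have h2 := D_pos w
  have h3 := Pool.Agent.H447R2.MZ.H_le_val w (adm_of (two_le h)) w.length
  have h4 : 0 < Pool.Agent.H447R2.MZ.H w w.length := by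
    by_contra h5
    push Not at h5
    nlinarith
  linarith

lemma exch : Exch (1 / 361) fun w => Real.log (mzv w) := by
  intro p1 p2 s h1 h2 h3 h4 h5
  have h32 : L23 (p1 ++ 3 :: (p2 ++ 2 :: s)) := by
    intro x hx
    simp only [List.mem_append, List.mem_cons] at hx
    rcases hx with h | h | h | h | h
    · exact h1 x h
    · exact Or.inr h
    · exact h2 x h
    · exact Or.inl h
    · exact h3 x h
  have h23 : L23 (p1 ++ 2 :: (p2 ++ 3 :: s)) := by
    intro x hx
    simp only [List.mem_append, List.mem_cons] at hx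
    rcases hx with h | h | h | h | h
    · exact h1 x h
    · exact Or.inl h
    · exact h2 x h
    · exact Or.inr h
    · exact h3 x h
  have h6 := val_exch p1 p2 s 2 2 le_rfl le_rfl (two_le h1) (two_le h2) (two_le h3) h4 h5
  norm_num at h6
  rw [← mzv_eq (adm_of (two_le h32)), ← mzv_eq (adm_of (two_le h23))] at h6
  have h7 := mzv_pos h32
  have h8 := Real.log_le_log (by positivity) h6
  rw [Real.log_mul (by norm_num) h7.ne'] at h8
  have h9 := Real.one_sub_inv_le_log_of_pos (show (0 : ℝ) < 361 / 360 by norm_num)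
  norm_num at h9
  simp only
  linarith

lemma words_eq (k : ℕ) : words k = ((Wd k : Finset (List ℕ)) : Set (List ℕ)) := by
  ext w
  rw [Finset.mem_coe, mem_Wd]
  rfl

lemma ncard_words (k : ℕ) : (words k).ncard = (Wd k).card := by rw [words_eq, Set.ncard_coe_finset]

lemma pos_Wd {k : ℕ} {w : List ℕ} (h : w ∈ Wd k) : 0 < mzv w := mzv_pos ((mem_Wd k w).1 h).1

/-- the small ball estimate in the form for relations -/
lemma ball_rel (k κ : ℕ) (hk : 1 ≤ k) (hκ : k ≤ κ) (H : ℕ) (hH : 1 ≤ H) (x : ℝ) :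
    (((Wd κ).filter fun w => x ≤ Real.log (mzv w) ∧ Real.log (mzv w) ≤ x + 2 * Real.log (4 * H)).card : ℝ) ≤
      (3 * 10 ^ 5 * (1 + Real.log H) / √k) * (Wd κ).card := by
  have hH' : (1 : ℝ) ≤ H := by exact_mod_cast hH
  have hlH : 0 ≤ Real.log H := Real.log_nonneg hH'
  have h1 := ball (c := 1 / 361) (by norm_num) exch κ (hk.trans hκ) x (2 * Real.log (4 * H)) (by
    have := Real.log_nonneg (show (1 : ℝ) ≤ 4 * H by linarith)
    linarith)
  refine h1.trans ?_
  have hk0 : (0 : ℝ) < k := by exact_mod_cast hk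
  have hsk : 0 < √(k : ℝ) := Real.sqrt_pos.2 hk0
  have hs : √(k : ℝ) ≤ √(κ : ℝ) := Real.sqrt_le_sqrt (by exact_mod_cast hκ)
  have h2 : Real.log (4 * H) ≤ 1.3863 + Real.log H := by
    rw [Real.log_mul (by norm_num) (by linarith), show (4 : ℝ) = 2 ^ 2 by norm_num, Real.log_pow]
    have := Real.log_two_lt_d9
    push_cast
    linarith
  have h3 : (2 * Real.log (4 * H)) / (1 / 361) + 1 ≤ 1500 * (1 + Real.log H) := by
    rw [div_div_eq_mul_div, div_one]
    linarith
  have hc : (0 : ℝ) ≤ (Wd κ).card := Nat.cast_nonneg _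
  calc ((2 * Real.log (4 * H)) / (1 / 361) + 1) * (200 * ((Wd κ).card : ℝ) / √(κ : ℝ))
      ≤ (1500 * (1 + Real.log H)) * (200 * ((Wd κ).card : ℝ) / √(k : ℝ)) := by
        refine mul_le_mul h3 ?_ (by positivity) (by positivity)
        exact div_le_div_of_nonneg_left (by positivity) hsk hs
    _ = _ := by ring

/-- **Theorem.** Let `N_k = (words k).ncard` be the number of words of weight `k` in the letters `2`, `3`, `k ≥ 1`. (1) For
`y > 0` and `L ≥ 0` at most `10 ^ 5 (1 + L) N_k / √k` words `w` of weight `k` satisfy `y ≤ ζ(w) ≤ e ^ L y`. Let `H ≥ 1`. (2) Let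
`κ_1, ..., κ_r ≥ k` and `θ` be a real number. For all but at most `3 * 10 ^ 5 r ^ 2 (1 + log H) / √k * ∏ N_{κ_i}` of the tuples of
words `w_i` of weights `κ_i` one has `|∑ c_j ζ(w_j) - e θ| ≥ ζ(w_i) / 2` for all integers `c_j`, `e` of absolute value at most `H`
and all `i` with `c_i ≠ 0`. (3) For all but at most `3 * 10 ^ 5 (2 D + 1) ^ r (1 + log H) / √k * ∏ N_{κ_i}` of the tuples one has
`|Q(ζ(w_1), ..., ζ(w_r))| ≥ ∏ ζ(w_i) ^ (m_i) / 2` for all integer polynomials `Q` of degree at most `D` in each variable, with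
coefficients of absolute value at most `H`, and all exponents `m` in the support of `Q`. (4) Every set `F` of words of weight
`k` contains a set `G` with at least `√k |F| / (3 * 10 ^ 5 (1 + log H) N_k)` elements such that
`|∑ c_v ζ(v)| ≥ ζ(w) / 2` (the sum over `v` in `G`) for all integers `c_v` of absolute value at most `H` and all `w` in `G` with
`c_w ≠ 0`. -/
theorem result (k : ℕ) (hk : 1 ≤ k) :
    (words k).Finite ∧
    (∀ y L : ℝ, 0 < y → 0 ≤ L →
      ({w ∈ words k | y ≤ mzv w ∧ mzv w ≤ Real.exp L * y}.ncard : ℝ) ≤ 10 ^ 5 * (1 + L) * (words k).ncard / √k) ∧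
    ∀ H : ℕ, 1 ≤ H →
      (∀ (r : ℕ) (κ : Fin r → ℕ), (∀ i, k ≤ κ i) →
        (∀ θ : ℝ, ({w : Fin r → List ℕ | (∀ i, w i ∈ words (κ i)) ∧ ∃ (c : Fin r → ℤ) (e : ℤ), (∀ i, |c i| ≤ H) ∧ |e| ≤ H ∧
            ∃ i, c i ≠ 0 ∧ |∑ j, (c j : ℝ) * mzv (w j) - e * θ| < mzv (w i) / 2}.ncard : ℝ) ≤
          3 * 10 ^ 5 * r ^ 2 * (1 + Real.log H) / √k * ∏ i, ((words (κ i)).ncard : ℝ)) ∧
        ∀ D : ℕ, ({w : Fin r → List ℕ | (∀ i, w i ∈ words (κ i)) ∧ ∃ Q : MvPolynomial (Fin r) ℤ,
            (∀ i, Q.degreeOf i ≤ D) ∧ (∀ m, |Q.coeff m| ≤ H) ∧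
            ∃ m ∈ Q.support, |MvPolynomial.aeval (fun i => mzv (w i)) Q| < (∏ i, mzv (w i) ^ m i) / 2}.ncard : ℝ) ≤
          3 * 10 ^ 5 * (2 * D + 1) ^ r * (1 + Real.log H) / √k * ∏ i, ((words (κ i)).ncard : ℝ)) ∧
      ∀ F ⊆ words k, ∃ G : Finset (List ℕ), (G : Set (List ℕ)) ⊆ F ∧
        √k * F.ncard ≤ 3 * 10 ^ 5 * (1 + Real.log H) * (words k).ncard * G.card ∧
        ∀ c : List ℕ → ℤ, (∀ v ∈ G, |c v| ≤ H) → ∀ w ∈ G, c w ≠ 0 → mzv w / 2 ≤ |∑ v ∈ G, (c v : ℝ) * mzv v| := by
  classical
  have hk0 : (0 : ℝ) < k := by exact_mod_cast hk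
  have hsk : 0 < √(k : ℝ) := Real.sqrt_pos.2 hk0
  refine ⟨by rw [words_eq]; exact Finset.finite_toSet _, fun y L hy hL => ?_, fun H hH => ⟨fun r κ hκ => ⟨fun θ => ?_, fun D => ?_⟩,
    fun F hF => ?_⟩⟩
  · rw [ncard_words]
    have h1 : {w ∈ words k | y ≤ mzv w ∧ mzv w ≤ Real.exp L * y} =
        (((Wd k).filter fun w => Real.log y ≤ Real.log (mzv w) ∧ Real.log (mzv w) ≤ Real.log y + L : Finset (List ℕ)) :
          Set (List ℕ)) := by
      rw [words_eq]
      ext w
      rw [Set.mem_ofPred_eq, Finset.mem_coe, Finset.mem_coe, Finset.mem_filter]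
      refine and_congr_right fun hw => ?_
      have hp := pos_Wd hw
      rw [Real.log_le_log_iff hy hp, ← Real.log_exp L, ← Real.log_mul hy.ne' (Real.exp_pos L).ne',
        Real.log_le_log_iff hp (by positivity), Real.log_exp, mul_comm y]
    rw [h1, Set.ncard_coe_finset]
    refine (ball (c := 1 / 361) (by norm_num) exch k hk (Real.log y) L hL).trans ?_
    have h2 : (L / (1 / 361) + 1) * (200 * ((Wd k).card : ℝ) / √(k : ℝ)) =
        ((361 * L + 1) * 200) * ((Wd k).card : ℝ) / √(k : ℝ) := by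
      rw [div_div_eq_mul_div, div_one]
      ring
    rw [h2]
    have h3 : (361 * L + 1) * 200 ≤ 10 ^ 5 * (1 + L) := by linarith
    exact div_le_div_of_nonneg_right (mul_le_mul_of_nonneg_right h3 (Nat.cast_nonneg _)) hsk.le
  · simp only [ncard_words]
    set P : (Fin r → List ℕ) → Prop := fun w => ∃ (c : Fin r → ℤ) (e : ℤ), (∀ i, |c i| ≤ H) ∧ |e| ≤ H ∧
            ∃ i, c i ≠ 0 ∧ |∑ j, (c j : ℝ) * mzv (w j) - e * θ| < mzv (w i) / 2 with hP
    have h1 : {w : Fin r → List ℕ | (∀ i, w i ∈ words (κ i)) ∧ P w} =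
        (((Fintype.piFinset fun i : Fin r => Wd (κ i)).filter P : Finset (Fin r → List ℕ)) : Set (Fin r → List ℕ)) := by
      ext w
      simp only [words_eq, Set.mem_ofPred_eq, Finset.mem_coe, Finset.mem_filter, Fintype.mem_piFinset]
    rw [h1, Set.ncard_coe_finset]
    refine (lin_rel (fun i : Fin r => Wd (κ i)) mzv (fun i w hw => pos_Wd hw) H hH (3 * 10 ^ 5 * (1 + Real.log H) / √k)
      (fun i x => ball_rel k (κ i) hk (hκ i) H hH x) θ P (fun w _ hw => hw)).trans (le_of_eq ?_)
    ring
  · simp only [ncard_words]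
    set P : (Fin r → List ℕ) → Prop := fun w => ∃ Q : MvPolynomial (Fin r) ℤ,
            (∀ i, Q.degreeOf i ≤ D) ∧ (∀ m, |Q.coeff m| ≤ H) ∧
            ∃ m ∈ Q.support, |MvPolynomial.aeval (fun i => mzv (w i)) Q| < (∏ i, mzv (w i) ^ m i) / 2 with hP
    have h1 : {w : Fin r → List ℕ | (∀ i, w i ∈ words (κ i)) ∧ P w} =
        (((Fintype.piFinset fun i : Fin r => Wd (κ i)).filter P : Finset (Fin r → List ℕ)) : Set (Fin r → List ℕ)) := by
      ext w
      simp only [words_eq, Set.mem_ofPred_eq, Finset.mem_coe, Finset.mem_filter, Fintype.mem_piFinset]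
    rw [h1, Set.ncard_coe_finset]
    have hH' : (1 : ℝ) ≤ H := by exact_mod_cast hH
    have hlH : 0 ≤ Real.log H := Real.log_nonneg hH'
    refine (poly_rel (fun i : Fin r => Wd (κ i)) mzv (fun i w hw => pos_Wd hw) D H hH (3 * 10 ^ 5 * (1 + Real.log H) / √k)
      (by positivity) (fun i x => ball_rel k (κ i) hk (hκ i) H hH x) P (fun w _ hw => hw)).trans (le_of_eq ?_)
    ring
  · rw [ncard_words]
    have hFf : F.Finite := (by rw [words_eq]; exact Finset.finite_toSet _ : (words k).Finite).subset hF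
    have h1 : ((hFf.toFinset : Finset (List ℕ)) : Set (List ℕ)) = F := hFf.coe_toFinset
    have h2 : hFf.toFinset ⊆ Wd k := by
      intro w hw
      rw [Set.Finite.mem_toFinset] at hw
      have := hF hw
      rw [words_eq] at this
      exact Finset.mem_coe.1 this
    obtain ⟨G, hG, hcard, hrel⟩ := dense_rel (Wd k) hFf.toFinset h2 mzv (fun w hw => pos_Wd hw) H hH
      (3 * 10 ^ 5 * (1 + Real.log H) / √k) (fun x => ball_rel k k hk le_rfl H hH x)
    refine ⟨G, fun w hw => ?_, ?_, hrel⟩
    · have := hG (Finset.mem_coe.1 hw)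
      rwa [Set.Finite.mem_toFinset] at this
    · rw [Set.ncard_eq_toFinset_card F hFf]
      have h3 := mul_le_mul_of_nonneg_left hcard hsk.le
      refine h3.trans (le_of_eq ?_)
      field_simp

end Pool.Agent.Results.MP_301213_nt.LogSeparation
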