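import Mathlib
import Pool.Agent.L5helper45.HW.Main2
import Pool.Agent.L5helper45.HW.Forms
import Pool.Agent.L5helper83.AW.Small
import Pool.Agent.L5helper56.AW.Fam
import Pool.Agent.L5helper5.PM.SZ

/-!
# MP_301213_nt: no real number is the value of more than `C N / k ^ A` Hoffman words, for every power `A`

Hoffman's conjecture says that the `N_k` numbers `ζ(w)`, `w` a word of weight `k` in the letters `2`, `3`, are linearly
independent over `ℚ`; in particular they are different. We prove that for every `A` there are `B`, `C` and `K` (depending also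
on `D` and `r` in the last three points) such that

* every interval `[y, (1 + k ^ (- B)) y]` contains the values of at most `C N_κ / k ^ A` words of weight `κ ≥ k`; in particular
  every real number is the value of at most `C N_k / k ^ A` words of weight `k` (known so far: `200 N_k / √k`, from Sperner's
  theorem);
* all but a proportion `C (2 H + 1) ^ (r + s) / k ^ A` of the `r`-tuples of words of weights `≥ k` satisfy no linear relation
  of height `H`, even modulo `s` given real numbers, and the linear forms are at least `k ^ (- B) / 4` times each of their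
  terms; so the exceptional set of the tuples with a relation of height `k ^ A'` is smaller than every power of `1 / k`;
* the value of a given real polynomial of degree `≤ D` in each variable at `(ζ(w_1), ..., ζ(w_r))` is at least `k ^ (- B)` times
  each of its terms, for all but a proportion `C / k ^ A` of the tuples; and the same for all integer polynomials of degree
  `≤ D` in each variable and of height `≤ H` at once, for all but a proportion `C (2 H + 1) ^ ((D + 1) ^ r) / k ^ A`;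
* if `k ≥ K`, every set of at least `N_k / k ^ A` words of weight `k` contains `k ^ A` words, any `r` different ones of which
  satisfy no polynomial relation of degree `≤ D` in each variable and height `≤ k ^ A` over the integers (and no such
  polynomial has a value smaller than `k ^ (- B)` times one of its terms).

Proof. Let `S` be the summation operator and `θ` the multiplication by `1 / (n + 1)` on functions on `ℕ`. A multiple zeta
value is obtained by applying products of `S θ ^ 2` and `S θ ^ 3`. Since `S θ - θ S = θ (S ^ 2 + S) θ`, every commutator gains a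
factor `θ` (`Op`). Let `X_0 = 2 3`, `Y_0 = 3 2`, `X_{i + 1} = X_i Y_i`, `Y_{i + 1} = Y_i X_i` (the words of Thue and Morse). The
operator of `X_i` minus the one of `Y_i` is an iterated commutator, so if a block `X_i`, with `j` letters below it and at least
`j ^ 6` letters above it, is replaced by `Y_i`, then `log ζ` changes by `± c_i j ^ (- i - 1) (1 + o(1))`, with the sign
`(- 1) ^ i`: the main term comes from the first term of the inner sum (`L5helper39.HW.Diff`), the rest is small by the gap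
estimate (`L5helper85.HW.Gap`): the mass of the terms in which the summation variables jump by `d` above the block is at most
`2 (4 j ^ 2 / l) ^ d` of the value, `l` the number of letters above. Choose `q = c (i + 1) log k` scales of positions between
`k ^ (1 / 14)` and `k ^ (1 / 7)`, such that the effect of an exchange at one scale is larger than all the effects at the higher
scales together. Except for `C k ^ (- A) N_k` words (`L5helper85.HW.Cnt`) every word has a block `X_i` or `Y_i` at every scale;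
the exchanges at the first such block of every scale generate `2 ^ q` words with well separated values (`Orb`), and
`2 ^ q ≥ k ^ A` if `i` is large. The polynomials are treated by induction on the number of variables
(`L5helper83.AW.small_values`), the families by a union bound (`L5helper56.AW.sparse_family`).
-/

set_option autoImplicit false

namespace Pool.Agent.Results.MP_301213_nt.SmallBallsAllPowers

open Pool.Agent.L5helper5.SP (L23 Wd mem_Wd)
open Pool.Agent.L5helper45.HW (few2 two_le val_pos lin_forms)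
open Pool.Agent.L5helper5.PM (PS card_PS mem_PS)
open Pool.Agent.L5helper14.AW (small_values sparse_family)

/-- the multiple zeta value of the list `l`, the first entry belongs to the largest summation variable, in the words of
`S16469` -/
noncomputable def mzv (l : List ℕ) : ℝ :=
  ∑' m : {m : Fin l.length → ℕ // StrictAnti m ∧ ∀ i, 0 < m i}, ∏ i, ((m.1 i : ℝ) ^ (l.get i))⁻¹

/-- the words of weight `k` in the letters `2` and `3` -/
def words (k : ℕ) : Set (List ℕ) := {w | (∀ x ∈ w, x = 2 ∨ x = 3) ∧ w.sum = k}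

/-- The value of the real polynomial `P` at `(ζ(w_1), ..., ζ(w_r))` is smaller than `ε` times the absolute value of one of its
terms there. -/
def Small {r : ℕ} (ε : ℝ) (P : MvPolynomial (Fin r) ℝ) (w : Fin r → List ℕ) : Prop :=
  ∃ m : Fin r →₀ ℕ, |MvPolynomial.eval (fun i => mzv (w i)) P| < ε * (|P.coeff m| * ∏ i, mzv (w i) ^ m i)

/-- `Small` for some polynomial of degree at most `D` in each variable with integer coefficients of absolute value at most
`H`. -/
def SmallValue {r : ℕ} (D H : ℕ) (ε : ℝ) (w : Fin r → List ℕ) : Prop :=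
  ∃ P : MvPolynomial (Fin r) ℤ, (∀ i, P.degreeOf i ≤ D) ∧ (∀ m, |P.coeff m| ≤ (H : ℤ)) ∧
    Small ε (MvPolynomial.map (Int.castRingHom ℝ) P) w

lemma mzv_eq {l : List ℕ} (hl : Pool.Agent.H447R2.MZ.Adm l) : mzv l = Pool.Agent.H447R2.MZ.val l := by
  have h1 := Pool.Agent.H447R2.MZ.hasSum_val l.length l.get (by rw [List.ofFn_get]; exact hl)
  rw [List.ofFn_get] at h1
  exact h1.tsum_eq

lemma mzv_eq' {w : List ℕ} (h : L23 w) : mzv w = Pool.Agent.H447R2.MZ.val w :=
  mzv_eq (Pool.Agent.L5helper80.MZ.adm_of (two_le h))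

lemma words_eq (k : ℕ) : words k = ((Wd k : Finset (List ℕ)) : Set (List ℕ)) := by
  ext w
  rw [Finset.mem_coe, mem_Wd]
  rfl

lemma ncard_words (k : ℕ) : (words k).ncard = (Wd k).card := by rw [words_eq, Set.ncard_coe_finset]

lemma mzv_pos {κ : ℕ} {w : List ℕ} (hw : w ∈ Wd κ) : 0 < mzv w := by
  rw [mzv_eq' ((mem_Wd _ _).1 hw).1]
  exact val_pos ((mem_Wd _ _).1 hw).1

open Classical in
/-- the small balls in terms of `mzv` -/
lemma few' (A : ℕ) : ∃ (B : ℕ) (C : ℝ), 0 < C ∧ ∀ k κ : ℕ, 1 ≤ k → k ≤ κ → ∀ y : ℝ, 0 < y →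
    (((Wd κ).filter fun w : List ℕ => y ≤ mzv w ∧ mzv w ≤ (1 + 1 / (k : ℝ) ^ B) * y).card : ℝ) ≤
      C / (k : ℝ) ^ A * (Wd κ).card := by
  obtain ⟨B, C, hC, h⟩ := few2 A
  refine ⟨B, C, hC, fun k κ hk hκ y hy => ?_⟩
  refine le_trans (le_of_eq ?_) (h k κ hk hκ y hy)
  congr 2
  refine Finset.filter_congr fun w hw => ?_
  rw [mzv_eq' ((mem_Wd _ _).1 hw).1]

lemma small_zero {r : ℕ} {κ : Fin r → ℕ} {w : Fin r → List ℕ} (hw : ∀ i, w i ∈ Wd (κ i)) {ε : ℝ} (hε : 0 < ε)
    {P : MvPolynomial (Fin r) ℝ} (hP : P ≠ 0) (h : MvPolynomial.eval (fun i => mzv (w i)) P = 0) : Small ε P w := by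
  obtain ⟨m, hm⟩ := Finset.nonempty_iff_ne_empty.2 (fun h => hP (MvPolynomial.support_eq_empty.1 h))
  refine ⟨m, ?_⟩
  rw [h, abs_zero]
  have h10 : 0 < ∏ i, mzv (w i) ^ m i := Finset.prod_pos fun i _ => pow_pos (mzv_pos (hw i)) _
  have h11 : 0 < |P.coeff m| := abs_pos.2 (MvPolynomial.mem_support_iff.1 hm)
  positivity

open Classical in
/-- the small values of a finite set of real polynomials -/
lemma smallS (A D r : ℕ) : ∃ (B : ℕ) (C : ℝ), 0 < C ∧ ∀ (k : ℕ) (κ : Fin r → ℕ), 2 ≤ k → (∀ i, k ≤ κ i) →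
    ∀ S : Finset (MvPolynomial (Fin r) ℝ), (∀ P ∈ S, ∀ i, P.degreeOf i ≤ D) →
      (((Fintype.piFinset fun i : Fin r => Wd (κ i)).filter fun u => ∃ P ∈ S, Small (1 / (k : ℝ) ^ B) P u).card : ℝ) ≤
        S.card * (C / (k : ℝ) ^ A) * ∏ i, ((Wd (κ i)).card : ℝ) := by
  obtain ⟨B, C, hC, h⟩ := few' A
  -- the radius `1 / (3 k ^ B)` and then the exponent of the final bound
  refine ⟨(B + 4) * (D * r), C * (D + 1) ^ r, by positivity, fun k κ hk hκ S hS => ?_⟩
  have hk0 : (0 : ℝ) < k := by exact_mod_cast (by omega : 0 < k)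
  have hk2 : (2 : ℝ) ≤ k := by exact_mod_cast hk
  set δ : ℝ := 1 / (3 * (k : ℝ) ^ B) with hδ
  have hkB : (1 : ℝ) ≤ (k : ℝ) ^ B := one_le_pow₀ (by linarith)
  have hδ0 : 0 < δ := by positivity
  have hδ1 : δ ≤ 1 / 3 := by
    rw [hδ]
    apply one_div_le_one_div_of_le (by norm_num)
    linarith
  have hδ3 : 3 * δ = 1 / (k : ℝ) ^ B := by rw [hδ]; field_simp
  have hone : ∀ P ∈ S, (((Fintype.piFinset fun i : Fin r => Wd (κ i)).filter fun u =>
      Small (1 / (k : ℝ) ^ ((B + 4) * (D * r))) P u).card : ℝ) ≤ C * (D + 1) ^ r / (k : ℝ) ^ A * ∏ i, ((Wd (κ i)).card : ℝ) := by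
    intro P hP
    have h1 := small_values r D (fun i => Wd (κ i)) mzv
      (fun i w hw => mzv_pos hw) (C / (k : ℝ) ^ A) δ (by positivity) hδ0 hδ1
      (fun i y hy => by rw [hδ3]; exact h k (κ i) (by omega) (hκ i) y hy) P (hS P hP)
    have h2 : (((Fintype.piFinset fun i : Fin r => Wd (κ i)).filter fun u =>
        Small (1 / (k : ℝ) ^ ((B + 4) * (D * r))) P u).card : ℝ) ≤
        (((Fintype.piFinset fun i : Fin r => Wd (κ i)).filter fun w => ∃ m, |MvPolynomial.eval (fun i => mzv (w i)) P| <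
        (δ / 3) ^ (D * r) * (|P.coeff m| * ∏ i, mzv (w i) ^ (m i))).card : ℝ) := by
      have h3 : ((Fintype.piFinset fun i : Fin r => Wd (κ i)).filter fun u =>
          Small (1 / (k : ℝ) ^ ((B + 4) * (D * r))) P u) ⊆
          ((Fintype.piFinset fun i : Fin r => Wd (κ i)).filter fun w => ∃ m, |MvPolynomial.eval (fun i => mzv (w i)) P| <
          (δ / 3) ^ (D * r) * (|P.coeff m| * ∏ i, mzv (w i) ^ (m i))) := by
        intro u hu
        rw [Finset.mem_filter] at hu ⊢
        obtain ⟨h4, m, h5⟩ := hu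
        refine ⟨h4, m, h5.trans_le ?_⟩
        rw [Fintype.mem_piFinset] at h4
        have h6 : 0 ≤ |P.coeff m| * ∏ i, mzv (u i) ^ (m i) :=
          mul_nonneg (abs_nonneg _) (Finset.prod_nonneg fun i _ => pow_nonneg (mzv_pos (h4 i)).le _)
        refine mul_le_mul_of_nonneg_right ?_ h6
        rw [pow_mul, ← one_div_pow]
        refine pow_le_pow_left₀ (by positivity) ?_ _
        have h7 : (9 : ℝ) ≤ (k : ℝ) ^ 4 := by
          calc (9 : ℝ) ≤ 2 ^ 4 := by norm_num
            _ ≤ (k : ℝ) ^ 4 := by gcongr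
        rw [hδ, div_div, pow_add]
        apply one_div_le_one_div_of_le (by positivity)
        have h8 : 0 < (k : ℝ) ^ B := by positivity
        nlinarith
      exact_mod_cast Finset.card_le_card h3
    refine (h2.trans h1).trans (le_of_eq ?_)
    ring
  have hsub : ((Fintype.piFinset fun i : Fin r => Wd (κ i)).filter fun u =>
      ∃ P ∈ S, Small (1 / (k : ℝ) ^ ((B + 4) * (D * r))) P u) ⊆
      S.biUnion fun P => (Fintype.piFinset fun i : Fin r => Wd (κ i)).filter fun u =>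
        Small (1 / (k : ℝ) ^ ((B + 4) * (D * r))) P u := by
    intro u hu
    rw [Finset.mem_filter] at hu
    obtain ⟨h4, P, hP, h5⟩ := hu
    rw [Finset.mem_biUnion]
    exact ⟨P, hP, Finset.mem_filter.2 ⟨h4, h5⟩⟩
  have h9 := (Finset.card_le_card hsub).trans Finset.card_biUnion_le
  have h10 : (((Fintype.piFinset fun i : Fin r => Wd (κ i)).filter fun u =>
      ∃ P ∈ S, Small (1 / (k : ℝ) ^ ((B + 4) * (D * r))) P u).card : ℝ) ≤
      ∑ P ∈ S, (((Fintype.piFinset fun i : Fin r => Wd (κ i)).filter fun u =>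
        Small (1 / (k : ℝ) ^ ((B + 4) * (D * r))) P u).card : ℝ) := by exact_mod_cast h9
  refine h10.trans ((Finset.sum_le_card_nsmul _ _ _ hone).trans (le_of_eq ?_))
  rw [nsmul_eq_mul]
  ring

open Classical in
/-- the tuples with small values of integer polynomials -/
lemma smallZ (A D r : ℕ) : ∃ (B : ℕ) (C : ℝ), 0 < C ∧ ∀ (k : ℕ) (κ : Fin r → ℕ), 2 ≤ k → (∀ i, k ≤ κ i) → ∀ H : ℕ,
      (((Fintype.piFinset fun i : Fin r => Wd (κ i)).filter fun u => SmallValue D H (1 / (k : ℝ) ^ B) u).card : ℝ) ≤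
        (2 * H + 1) ^ (D + 1) ^ r * (C / (k : ℝ) ^ A) * ∏ i, ((Wd (κ i)).card : ℝ) := by
  obtain ⟨B, C, hC, h⟩ := smallS A D r
  refine ⟨B, C, hC, fun k κ hk hκ H => ?_⟩
  set S : Finset (MvPolynomial (Fin r) ℝ) :=
      ((PS r D H).filter fun P => ∀ i, P.degreeOf i ≤ D).image (MvPolynomial.map (Int.castRingHom ℝ)) with hS
  have hSc : (S.card : ℝ) ≤ (2 * H + 1) ^ (D + 1) ^ r := by
    have h1 : S.card ≤ (2 * H + 1) ^ (D + 1) ^ r :=
      (Finset.card_image_le.trans (Finset.card_filter_le _ _)).trans (card_PS r D H)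
    exact_mod_cast h1
  have h2 := h k κ hk hκ S (fun P hP i => by
    rw [hS, Finset.mem_image] at hP
    obtain ⟨Q, hQ, rfl⟩ := hP
    rw [Finset.mem_filter] at hQ
    rw [MvPolynomial.degreeOf_le_iff]
    intro m hm
    exact MvPolynomial.degreeOf_le_iff.1 (hQ.2 i) m (MvPolynomial.support_map_subset _ _ hm))
  have h3 : (((Fintype.piFinset fun i : Fin r => Wd (κ i)).filter fun u => SmallValue D H (1 / (k : ℝ) ^ B) u).card : ℝ) ≤
      (((Fintype.piFinset fun i : Fin r => Wd (κ i)).filter fun u => ∃ P ∈ S, Small (1 / (k : ℝ) ^ B) P u).card : ℝ) := by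
    have h4 : ((Fintype.piFinset fun i : Fin r => Wd (κ i)).filter fun u => SmallValue D H (1 / (k : ℝ) ^ B) u) ⊆
        ((Fintype.piFinset fun i : Fin r => Wd (κ i)).filter fun u => ∃ P ∈ S, Small (1 / (k : ℝ) ^ B) P u) := by
      intro u hu
      rw [Finset.mem_filter] at hu ⊢
      obtain ⟨h5, P, h6, h7, h8⟩ := hu
      refine ⟨h5, _, ?_, h8⟩
      rw [hS, Finset.mem_image]
      exact ⟨P, by rw [Finset.mem_filter]; exact ⟨mem_PS P h6 h7, h6⟩, rfl⟩
    exact_mod_cast Finset.card_le_card h4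
  refine (h3.trans h2).trans ?_
  have h5 : 0 ≤ C / (k : ℝ) ^ A := by positivity
  have h6 : (0 : ℝ) ≤ ∏ i, ((Wd (κ i)).card : ℝ) := Finset.prod_nonneg fun i _ => Nat.cast_nonneg _
  exact mul_le_mul_of_nonneg_right (mul_le_mul_of_nonneg_right hSc h5) h6

lemma Wd_ne : ∀ k : ℕ, 2 ≤ k → (Wd k).Nonempty
  | 0, h => absurd h (by norm_num)
  | 1, h => absurd h (by norm_num)
  | 2, _ => ⟨[2], by rw [mem_Wd]; simp [L23]⟩
  | 3, _ => ⟨[3], by rw [mem_Wd]; simp [L23]⟩
  | k + 4, _ => by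
    obtain ⟨w, hw⟩ := Wd_ne (k + 2) (by omega)
    refine ⟨2 :: w, ?_⟩
    rw [mem_Wd] at hw ⊢
    refine ⟨?_, by rw [List.sum_cons, hw.2]; ring⟩
    intro x hx
    rw [List.mem_cons] at hx
    rcases hx with rfl | hx
    · exact Or.inl rfl
    · exact hw.1 x hx

/-- the number of words grows faster than every power -/
lemma exp_beats (E : ℕ) (C : ℝ) : ∃ K : ℕ, ∀ k : ℕ, K ≤ k → C * (k : ℝ) ^ E < (Wd k).card := by
  classical
  obtain ⟨B, C', hC', h⟩ := few' (E + 1)
  refine ⟨max 2 (⌈C * C'⌉₊ + 1), fun k hk => ?_⟩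
  have hk2 : 2 ≤ k := le_of_max_le_left hk
  have hkC : ⌈C * C'⌉₊ + 1 ≤ k := le_of_max_le_right hk
  have hk0 : (0 : ℝ) < k := by exact_mod_cast (by omega : 0 < k)
  obtain ⟨w, hw⟩ := Wd_ne k hk2
  have h1 := h k k (by omega) le_rfl (mzv w) (mzv_pos hw)
  have h2 : (1 : ℝ) ≤ (((Wd k).filter fun w' : List ℕ => mzv w ≤ mzv w' ∧ mzv w' ≤ (1 + 1 / (k : ℝ) ^ B) * mzv w).card : ℝ) := by
    have h3 : w ∈ (Wd k).filter fun w' : List ℕ => mzv w ≤ mzv w' ∧ mzv w' ≤ (1 + 1 / (k : ℝ) ^ B) * mzv w := by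
      rw [Finset.mem_filter]
      have h4 := mzv_pos hw
      have h5 : (0 : ℝ) ≤ 1 / (k : ℝ) ^ B := by positivity
      exact ⟨hw, le_rfl, by nlinarith⟩
    exact_mod_cast Finset.card_pos.2 ⟨w, h3⟩
  have h3 := h2.trans h1
  rw [div_mul_eq_mul_div, one_le_div (by positivity), pow_succ] at h3
  have h4 : C * C' < k := by
    have h5 : C * C' ≤ (⌈C * C'⌉₊ : ℝ) := Nat.le_ceil _
    have h6 : ((⌈C * C'⌉₊ : ℕ) : ℝ) + 1 ≤ k := by exact_mod_cast hkC
    linarith
  have h7 : (0 : ℝ) < (k : ℝ) ^ E := by positivity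
  have h8 : C' * (C * (k : ℝ) ^ E) < C' * (Wd k).card := by
    refine lt_of_lt_of_le ?_ h3
    calc C' * (C * (k : ℝ) ^ E) = (k : ℝ) ^ E * (C * C') := by ring
      _ < (k : ℝ) ^ E * k := mul_lt_mul_of_pos_left h4 h7
  exact lt_of_mul_lt_mul_left h8 hC'.le

open Classical in
/-- dense sets contain large families without relations between `r` members -/
lemma family (A D r : ℕ) : ∃ (K B : ℕ), ∀ k : ℕ, K ≤ k → ∀ F : Finset (List ℕ), F ⊆ Wd k →
    ((Wd k).card : ℝ) ≤ (k : ℝ) ^ A * F.card → ∃ G ⊆ F, G.card = k ^ A ∧ ∀ u : Fin r → List ℕ, Function.Injective u →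
      (∀ i, u i ∈ G) → ¬ SmallValue D (k ^ A) (1 / (k : ℝ) ^ B) u := by
  set E : ℕ := (D + 1) ^ r with hE
  obtain ⟨B, C, hC, h⟩ := smallZ (2 * A * r + A * E + 1) D r
  -- `m ^ 2 / |F| ≤ k ^ (3 A) / N_k < 1 / 2`
  obtain ⟨K1, hK1⟩ := exp_beats (3 * A) 2
  refine ⟨max (max K1 2) (⌈2 * 3 ^ E * C⌉₊ + 1), B, fun k hk F hF hFc => ?_⟩
  have hkK1 : K1 ≤ k := (le_max_left _ _).trans ((le_max_left _ _).trans hk)
  have hk2 : 2 ≤ k := (le_max_right _ _).trans ((le_max_left _ _).trans hk)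
  have hkC : ⌈2 * 3 ^ E * C⌉₊ + 1 ≤ k := (le_max_right _ _).trans hk
  have hk0 : (0 : ℝ) < k := by exact_mod_cast (by omega : 0 < k)
  have hk1 : (1 : ℝ) ≤ k := by exact_mod_cast (by omega : 1 ≤ k)
  have hkA : (0 : ℝ) < (k : ℝ) ^ A := by positivity
  have hP0 : (0 : ℝ) < (Wd k).card := by exact_mod_cast (Wd_ne k hk2).card_pos
  have hF0 : (0 : ℝ) < F.card := by
    by_contra hcon
    push Not at hcon
    have : (k : ℝ) ^ A * F.card ≤ 0 := mul_nonpos_of_nonneg_of_nonpos hkA.le hcon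
    linarith
  have hFne : F.Nonempty := Finset.card_pos.1 (by exact_mod_cast hF0)
  -- the proportion
  set η : ℝ := (2 * (k ^ A : ℕ) + 1) ^ E * (C / (k : ℝ) ^ (2 * A * r + A * E + 1)) with hη
  have h1 := h k (fun _ => k) hk2 (fun _ => le_rfl) (k ^ A)
  rw [Finset.prod_const, Finset.card_univ, Fintype.card_fin] at h1
  obtain ⟨G, hG, hGc, hGu⟩ := sparse_family (Wd k) F hF hFne r (k ^ A) (fun u => SmallValue D (k ^ A) (1 / (k : ℝ) ^ B) u) η
    h1 (by
      push_cast
      have hr1 : ((Wd k).card : ℝ) / F.card ≤ (k : ℝ) ^ A := by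
        rw [div_le_iff₀ hF0]; exact hFc
      have hr0 : (0 : ℝ) ≤ ((Wd k).card : ℝ) / F.card := by positivity
      have t1 : ((k : ℝ) ^ A) ^ 2 / F.card < 1 / 2 := by
        have h2 := hK1 k hkK1
        rw [div_lt_iff₀ hF0]
        have h3 : (k : ℝ) ^ (3 * A) = ((k : ℝ) ^ A) ^ 2 * (k : ℝ) ^ A := by rw [← pow_mul, ← pow_add]; congr 1; ring
        rw [h3] at h2
        by_contra hcon
        push Not at hcon
        have h4 : 1 / 2 * (F.card : ℝ) * (k : ℝ) ^ A ≤ ((k : ℝ) ^ A) ^ 2 * (k : ℝ) ^ A :=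
          mul_le_mul_of_nonneg_right hcon hkA.le
        nlinarith
      have t2 : ((k : ℝ) ^ A) ^ r * η * (((Wd k).card : ℝ) / (F.card : ℝ)) ^ r ≤ 1 / 2 := by
        have h2 : (((Wd k).card : ℝ) / (F.card : ℝ)) ^ r ≤ ((k : ℝ) ^ A) ^ r := pow_le_pow_left₀ hr0 hr1 r
        have hη0 : 0 ≤ η := by positivity
        have h3 : (2 * ((k ^ A : ℕ) : ℝ) + 1) ^ E ≤ (3 * (k : ℝ) ^ A) ^ E := by
          refine pow_le_pow_left₀ (by positivity) ?_ E
          push_cast
          have : (1 : ℝ) ≤ (k : ℝ) ^ A := one_le_pow₀ hk1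
          linarith
        have h4 : η ≤ (3 * (k : ℝ) ^ A) ^ E * (C / (k : ℝ) ^ (2 * A * r + A * E + 1)) :=
          mul_le_mul_of_nonneg_right h3 (by positivity)
        have h5 : 2 * 3 ^ E * C ≤ k := by
          have h6 : 2 * 3 ^ E * C ≤ (⌈2 * 3 ^ E * C⌉₊ : ℝ) := Nat.le_ceil _
          have h7 : ((⌈2 * 3 ^ E * C⌉₊ : ℕ) : ℝ) ≤ k := by exact_mod_cast (by omega : ⌈2 * 3 ^ E * C⌉₊ ≤ k)
          linarith
        calc ((k : ℝ) ^ A) ^ r * η * (((Wd k).card : ℝ) / (F.card : ℝ)) ^ r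
            ≤ ((k : ℝ) ^ A) ^ r * ((3 * (k : ℝ) ^ A) ^ E * (C / (k : ℝ) ^ (2 * A * r + A * E + 1))) * ((k : ℝ) ^ A) ^ r := by
              gcongr
          _ = 3 ^ E * C * ((((k : ℝ) ^ A) ^ r * ((k : ℝ) ^ A) ^ E * ((k : ℝ) ^ A) ^ r) / (k : ℝ) ^ (2 * A * r + A * E + 1)) := by
              rw [mul_pow]
              ring
          _ = 3 ^ E * C / k := by
              have e1 : ((k : ℝ) ^ A) ^ r * ((k : ℝ) ^ A) ^ E * ((k : ℝ) ^ A) ^ r = (k : ℝ) ^ (2 * A * r + A * E) := by
                rw [← pow_mul, ← pow_mul, ← pow_add, ← pow_add]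
                congr 1
                ring
              rw [e1, pow_succ]
              field_simp
          _ ≤ 1 / 2 := by
              rw [div_le_iff₀ hk0]
              linarith
      linarith)
  exact ⟨G, hG, hGc, hGu⟩

lemma Small_mono {r : ℕ} {κ : Fin r → ℕ} {ε ε' : ℝ} (h : ε ≤ ε') {P : MvPolynomial (Fin r) ℝ} {w : Fin r → List ℕ}
    (hw : ∀ i, w i ∈ Wd (κ i)) (hs : Small ε P w) : Small ε' P w := by
  obtain ⟨m, hm⟩ := hs
  refine ⟨m, hm.trans_le (mul_le_mul_of_nonneg_right h ?_)⟩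
  exact mul_nonneg (abs_nonneg _) (Finset.prod_nonneg fun i _ => pow_nonneg (mzv_pos (hw i)).le _)

lemma SmallValue_mono {r D H : ℕ} {κ : Fin r → ℕ} {ε ε' : ℝ} (h : ε ≤ ε') {w : Fin r → List ℕ}
    (hw : ∀ i, w i ∈ Wd (κ i)) (hs : SmallValue D H ε w) : SmallValue D H ε' w := by
  obtain ⟨P, h1, h2, h3⟩ := hs
  exact ⟨P, h1, h2, Small_mono h hw h3⟩

lemma eps_mono {k B B' : ℕ} (hk : 2 ≤ k) (h : B ≤ B') : 1 / (k : ℝ) ^ B' ≤ 1 / (k : ℝ) ^ B := by
  have hk1 : (1 : ℝ) ≤ k := by exact_mod_cast (by omega : 1 ≤ k)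
  exact one_div_le_one_div_of_le (by positivity) (pow_le_pow_right₀ hk1 h)

/-- **Theorem.** Let `N_k = (words k).ncard` be the number of words of weight `k` in the letters `2`, `3`. For all `A`, `D`, `r`
there are `B`, `K` and `C > 0` such that for all `k ≥ 2`: (1) for `κ ≥ k` and `y > 0` at most `C N_κ / k ^ A` words `w` of weight
`κ` satisfy `y ≤ ζ(w) ≤ (1 + k ^ (- B)) y`. Let `κ_1, ..., κ_r ≥ k`. (2) For all `s`, `H` and real `θ_1, ..., θ_s`, for all but
at most `C (2 H + 1) ^ (r + s) k ^ (- A) ∏ N_{κ_i}` of the tuples of words `w_i` of weights `κ_i` one has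
`|∑ c_j ζ(w_j) - ∑ e_j θ_j| ≥ |c_i| ζ(w_i) / (4 k ^ B)` for all integers `c_j`, `e_j` of absolute value at most `H` and all `i`
with `c_i ≠ 0`. (3) For every finite set `S` of real polynomials in `r` variables of degree at most `D` in each variable, for
all but at most `C |S| k ^ (- A) ∏ N_{κ_i}` of the tuples the value of every `P` in `S` at `(ζ(w_1), ..., ζ(w_r))` is at least
`k ^ (- B)` times the absolute value of each of the terms of `P` there. (4) The same holds for all integer polynomials of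
degree at most `D` in each variable, with coefficients of absolute value at most `H`, at once, with
`C (2 H + 1) ^ ((D + 1) ^ r) k ^ (- A) ∏ N_{κ_i}` exceptions; in particular, for the other tuples no nonzero polynomial of this
kind vanishes at `(ζ(w_1), ..., ζ(w_r))`. (5) If `k ≥ K`, every set of at least `N_k / k ^ A` words of weight `k` contains `k ^ A`
words, such that this holds with `H = k ^ A` for any `r` different ones of them. -/
theorem result (A D r : ℕ) : ∃ (B K : ℕ) (C : ℝ), 0 < C ∧ ∀ k : ℕ, 2 ≤ k →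
    (words k).Finite ∧
    -- few values in a short interval
    (∀ κ : ℕ, k ≤ κ → ∀ y : ℝ, 0 < y →
      ({w ∈ words κ | y ≤ mzv w ∧ mzv w ≤ (1 + 1 / (k : ℝ) ^ B) * y}.ncard : ℝ) ≤ C / (k : ℝ) ^ A * (words κ).ncard) ∧
    (∀ κ : Fin r → ℕ, (∀ i, k ≤ κ i) →
      -- linear forms, modulo given numbers
      (∀ (s H : ℕ) (θ : Fin s → ℝ), ({w : Fin r → List ℕ | (∀ i, w i ∈ words (κ i)) ∧ ∃ (c : Fin r → ℤ) (e : Fin s → ℤ),
          (∀ i, |c i| ≤ H) ∧ (∀ j, |e j| ≤ H) ∧ ∃ i, c i ≠ 0 ∧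
            |∑ j, (c j : ℝ) * mzv (w j) - ∑ j, (e j : ℝ) * θ j| < |(c i : ℝ)| * mzv (w i) / (4 * (k : ℝ) ^ B)}.ncard : ℝ) ≤
        (2 * H + 1) ^ (r + s) * (C / (k : ℝ) ^ A) * ∏ i, ((words (κ i)).ncard : ℝ)) ∧
      -- small values of given real polynomials
      (∀ S : Finset (MvPolynomial (Fin r) ℝ), (∀ P ∈ S, ∀ i, P.degreeOf i ≤ D) →
        ({w : Fin r → List ℕ | (∀ i, w i ∈ words (κ i)) ∧ ∃ P ∈ S, Small (1 / (k : ℝ) ^ B) P w}.ncard : ℝ) ≤
          S.card * (C / (k : ℝ) ^ A) * ∏ i, ((words (κ i)).ncard : ℝ)) ∧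
      -- small values of integer polynomials
      ∀ H : ℕ, ({w : Fin r → List ℕ | (∀ i, w i ∈ words (κ i)) ∧ SmallValue D H (1 / (k : ℝ) ^ B) w}.ncard : ℝ) ≤
        (2 * H + 1) ^ (D + 1) ^ r * (C / (k : ℝ) ^ A) * ∏ i, ((words (κ i)).ncard : ℝ)) ∧
    -- a nonzero polynomial which vanishes has a small value
    (∀ (κ : Fin r → ℕ) (w : Fin r → List ℕ), (∀ i, w i ∈ words (κ i)) → ∀ P : MvPolynomial (Fin r) ℝ, P ≠ 0 →
      MvPolynomial.eval (fun i => mzv (w i)) P = 0 → Small (1 / (k : ℝ) ^ B) P w) ∧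
    -- large families without relations in dense sets
    (K ≤ k → ∀ F ⊆ words k, ((words k).ncard : ℝ) ≤ (k : ℝ) ^ A * F.ncard →
      ∃ G : Finset (List ℕ), (G : Set (List ℕ)) ⊆ F ∧ G.card = k ^ A ∧
        ∀ w : Fin r → List ℕ, Function.Injective w → (∀ i, w i ∈ G) → ¬ SmallValue D (k ^ A) (1 / (k : ℝ) ^ B) w) := by
  classical
  obtain ⟨B1, C1, hC1, h1⟩ := few' A
  obtain ⟨B2, C2, hC2, h2⟩ := smallS A D r
  obtain ⟨B3, C3, hC3, h3⟩ := smallZ A D r
  obtain ⟨K, B4, h4⟩ := family A D r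
  refine ⟨B1 + B2 + B3 + B4, K, C1 + C2 + C3 + C1 * r, by positivity, fun k hk => ?_⟩
  have hk0 : (0 : ℝ) < k := by exact_mod_cast (by omega : 0 < k)
  have hk1 : (1 : ℝ) ≤ k := by exact_mod_cast (by omega : 1 ≤ k)
  have hkB : ∀ B : ℕ, (0 : ℝ) < (k : ℝ) ^ B := fun B => by positivity
  have hfin : (words k).Finite := by rw [words_eq]; exact Finset.finite_toSet _
  have hrC : (0 : ℝ) ≤ C1 * r := by positivity
  have hC1' : C1 / (k : ℝ) ^ A ≤ (C1 + C2 + C3 + C1 * r) / (k : ℝ) ^ A := div_le_div_of_nonneg_right (by linarith) (by positivity)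
  have hC2' : C2 / (k : ℝ) ^ A ≤ (C1 + C2 + C3 + C1 * r) / (k : ℝ) ^ A := div_le_div_of_nonneg_right (by linarith) (by positivity)
  have hC3' : C3 / (k : ℝ) ^ A ≤ (C1 + C2 + C3 + C1 * r) / (k : ℝ) ^ A := div_le_div_of_nonneg_right (by linarith) (by positivity)
  have hC4' : C1 * r / (k : ℝ) ^ A ≤ (C1 + C2 + C3 + C1 * r) / (k : ℝ) ^ A := div_le_div_of_nonneg_right (by linarith) (by positivity)
  have hset : ∀ (κ : Fin r → ℕ) (Q : (Fin r → List ℕ) → Prop), {w : Fin r → List ℕ | (∀ i, w i ∈ words (κ i)) ∧ Q w} =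
      (((Fintype.piFinset fun i : Fin r => Wd (κ i)).filter Q : Finset (Fin r → List ℕ)) : Set (Fin r → List ℕ)) := by
    intro κ Q
    ext w
    simp only [words_eq, Set.mem_ofPred_eq, Finset.mem_coe, Finset.mem_filter, Fintype.mem_piFinset]
  refine ⟨hfin, fun κ hκ y hy => ?_, fun κ hκ => ⟨fun s H θ => ?_, fun S hS => ?_, fun H => ?_⟩, fun κ w hw P hP h => ?_,
    fun hK F hF hFc => ?_⟩
  · have e1 : {w ∈ words κ | y ≤ mzv w ∧ mzv w ≤ (1 + 1 / (k : ℝ) ^ (B1 + B2 + B3 + B4)) * y} ⊆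
        (((Wd κ).filter fun w : List ℕ => y ≤ mzv w ∧ mzv w ≤ (1 + 1 / (k : ℝ) ^ B1) * y : Finset (List ℕ)) : Set (List ℕ)) := by
      rintro u ⟨g1, g2, g3⟩
      rw [Finset.mem_coe, Finset.mem_filter]
      rw [words_eq, Finset.mem_coe] at g1
      refine ⟨g1, g2, g3.trans (mul_le_mul_of_nonneg_right ?_ hy.le)⟩
      have := eps_mono (k := k) (B := B1) (B' := B1 + B2 + B3 + B4) hk (by omega)
      linarith
    have e2 := Set.ncard_le_ncard e1 (Finset.finite_toSet _)
    rw [Set.ncard_coe_finset] at e2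
    have e3 := h1 k κ (by omega) hκ y hy
    rw [ncard_words]
    refine le_trans (by exact_mod_cast e2) (e3.trans ?_)
    exact mul_le_mul_of_nonneg_right hC1' (by positivity)
  · set P : (Fin r → List ℕ) → Prop := fun w => ∃ (c : Fin r → ℤ) (e : Fin s → ℤ),
          (∀ i, |c i| ≤ H) ∧ (∀ j, |e j| ≤ H) ∧ ∃ i, c i ≠ 0 ∧
            |∑ j, (c j : ℝ) * mzv (w j) - ∑ j, (e j : ℝ) * θ j| <
              |(c i : ℝ)| * mzv (w i) / (4 * (k : ℝ) ^ (B1 + B2 + B3 + B4)) with hP
    rw [hset κ P, Set.ncard_coe_finset]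
    simp only [ncard_words]
    have e0 : (Fintype.piFinset fun i : Fin r => Wd (κ i)).filter P =
        (Fintype.piFinset fun i : Fin r => Wd (κ i)).filter fun w => (∀ i, w i ∈ Wd (κ i)) ∧ P w := by
      refine Finset.filter_congr fun w hw => ?_
      rw [Fintype.mem_piFinset] at hw
      exact ⟨fun h => ⟨hw, h⟩, fun h => h.2⟩
    rw [e0]
    refine (lin_forms r (fun i : Fin r => Wd (κ i)) mzv (fun i w hw => mzv_pos hw) (C1 / (k : ℝ) ^ A) (by positivity)
      (fun i => 1 / (k : ℝ) ^ B1) (fun i => ⟨by positivity, by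
        rw [div_le_one (hkB _)]; exact one_le_pow₀ hk1⟩)
      (fun i y hy => h1 k (κ i) (by omega) (hκ i) y hy) s H θ (fun w => (∀ i, w i ∈ Wd (κ i)) ∧ P w) (fun w hw => ?_)).trans ?_
    · obtain ⟨hw1, c, e, hc, he, i, hi, hlt⟩ := hw
      refine ⟨c, e, hc, he, i, hi, hlt.trans_le ?_⟩
      have g1 := eps_mono (k := k) (B := B1) (B' := B1 + B2 + B3 + B4) hk (by omega)
      have g2 : 0 ≤ |(c i : ℝ)| * mzv (w i) := mul_nonneg (abs_nonneg _) (mzv_pos (hw1 i)).le
      have g3 := mul_le_mul_of_nonneg_left g1 g2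
      have g4 : |(c i : ℝ)| * mzv (w i) / (4 * (k : ℝ) ^ (B1 + B2 + B3 + B4)) =
        |(c i : ℝ)| * mzv (w i) * (1 / (k : ℝ) ^ (B1 + B2 + B3 + B4)) / 4 := by
        have := hkB (B1 + B2 + B3 + B4)
        field_simp
      rw [g4]
      linarith
    · have g1 : (0 : ℝ) ≤ ∏ i, ((Wd (κ i)).card : ℝ) := Finset.prod_nonneg fun i _ => Nat.cast_nonneg _
      have g2 : (0 : ℝ) ≤ (2 * H + 1) ^ (r + s) := by positivity
      have g3 := mul_le_mul_of_nonneg_right (mul_le_mul_of_nonneg_left hC4' g2) g1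
      refine le_trans (le_of_eq ?_) g3
      ring
  · rw [hset κ (fun w => ∃ P ∈ S, Small (1 / (k : ℝ) ^ (B1 + B2 + B3 + B4)) P w), Set.ncard_coe_finset]
    simp only [ncard_words]
    have e1 : (Fintype.piFinset fun i : Fin r => Wd (κ i)).filter (fun w => ∃ P ∈ S, Small (1 / (k : ℝ) ^ (B1 + B2 + B3 + B4)) P w) ⊆
        (Fintype.piFinset fun i : Fin r => Wd (κ i)).filter fun w => ∃ P ∈ S, Small (1 / (k : ℝ) ^ B2) P w := by
      intro w hw
      rw [Finset.mem_filter] at hw ⊢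
      obtain ⟨g1, P, g2, g3⟩ := hw
      exact ⟨g1, P, g2, Small_mono (eps_mono hk (by omega)) (Fintype.mem_piFinset.1 g1) g3⟩
    have e2 := Finset.card_le_card e1
    refine le_trans (by exact_mod_cast e2) ((h2 k κ hk hκ S hS).trans ?_)
    exact mul_le_mul_of_nonneg_right (mul_le_mul_of_nonneg_left hC2' (Nat.cast_nonneg _))
      (Finset.prod_nonneg fun i _ => Nat.cast_nonneg _)
  · rw [hset κ (fun w => SmallValue D H (1 / (k : ℝ) ^ (B1 + B2 + B3 + B4)) w), Set.ncard_coe_finset]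
    simp only [ncard_words]
    have e1 : (Fintype.piFinset fun i : Fin r => Wd (κ i)).filter (fun w => SmallValue D H (1 / (k : ℝ) ^ (B1 + B2 + B3 + B4)) w) ⊆
        (Fintype.piFinset fun i : Fin r => Wd (κ i)).filter fun w => SmallValue D H (1 / (k : ℝ) ^ B3) w := by
      intro w hw
      rw [Finset.mem_filter] at hw ⊢
      exact ⟨hw.1, SmallValue_mono (eps_mono hk (by omega)) (Fintype.mem_piFinset.1 hw.1) hw.2⟩
    have e2 := Finset.card_le_card e1
    refine le_trans (by exact_mod_cast e2) ((h3 k κ hk hκ H).trans ?_)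
    exact mul_le_mul_of_nonneg_right (mul_le_mul_of_nonneg_left hC3' (by positivity))
      (Finset.prod_nonneg fun i _ => Nat.cast_nonneg _)
  · exact small_zero (κ := κ) (fun i => by have := hw i; rwa [words_eq, Finset.mem_coe] at this) (by positivity) hP h
  · have hFf : F.Finite := hfin.subset hF
    have e1 : hFf.toFinset ⊆ Wd k := by
      intro w hw
      rw [Set.Finite.mem_toFinset] at hw
      have := hF hw
      rwa [words_eq, Finset.mem_coe] at this
    obtain ⟨G, hG, hGc, hGu⟩ := h4 k hK hFf.toFinset e1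
      (by rw [← Set.ncard_eq_toFinset_card F hFf, ← ncard_words]; exact hFc)
    have hGF : ∀ w ∈ G, w ∈ F := fun w hw => by
      have := hG hw
      rwa [Set.Finite.mem_toFinset] at this
    refine ⟨G, fun w hw => hGF w (Finset.mem_coe.1 hw), hGc, fun u hu hi h => ?_⟩
    exact hGu u hu hi (SmallValue_mono (κ := fun _ => k) (eps_mono hk (by omega)) (fun i => e1 (hG (hi i))) h)

end Pool.Agent.Results.MP_301213_nt.SmallBallsAllPowers
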